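import Pool.Agent.H62.LP.T1

/-!
# Row GSU of the board `rwl_modules`
-/

set_option autoImplicit false

open MeasureTheory ProbabilityTheory Filter Topology
open scoped ENNReal NNReal

namespace Pool.Agent.H23.LP

open Pool.Agent.H62.LP

theorem tsum_set_le {V : Type} (S : Set V) [∀ y, Decidable (y ∈ S)] (hS : S.Finite) (N : ℕ) (hN : S.ncard ≤ N)
    (g : V → ℝ≥0∞) (b : ℝ≥0∞) (hg : ∀ y ∈ S, g y ≤ b) :
    ∑' y, (if y ∈ S then g y else 0) ≤ N * b := by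
  classical
  have h1 : ∑' y, (if y ∈ S then g y else 0) = ∑ y ∈ hS.toFinset, g y := by
    rw [tsum_eq_sum (s := hS.toFinset)]
    · exact Finset.sum_congr rfl fun y hy => if_pos ((Set.Finite.mem_toFinset hS).1 hy)
    · intro y hy
      exact if_neg fun h => hy ((Set.Finite.mem_toFinset hS).2 h)
  rw [h1]
  calc ∑ y ∈ hS.toFinset, g y ≤ ∑ y ∈ hS.toFinset, b :=
        Finset.sum_le_sum fun y hy => hg y ((Set.Finite.mem_toFinset hS).1 hy)
    _ = (hS.toFinset.card : ℝ≥0∞) * b := by rw [Finset.sum_const, nsmul_eq_mul]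
    _ ≤ N * b := by
        rw [← Set.ncard_eq_toFinset_card S hS]
        gcongr

theorem nm_neg (x : V3) : nm (-x) = nm x := by
  unfold nm
  refine Finset.sup_congr rfl fun i _ => ?_
  rw [Pi.neg_apply, Int.natAbs_neg]

theorem nm_sub_comm (x y : V3) : nm (x - y) = nm (y - x) := by
  rw [← nm_neg, neg_sub]

open Classical in
/-- the two parts of the sum -/
theorem split_sum (hCNT : T_CNT) (x z : V3) (r : ℕ) (g : V3 → ℝ≥0∞) (b : ℕ → ℝ≥0∞)
    (hb : ∀ y, g y ≤ b (nm (x - y))) (hanti : ∀ k l, k ≤ l → b l ≤ b k) :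
    ∑' y, (if y ∈ Bl z r then g y else 0) ≤
      ∑ k ∈ Finset.range (r + 1), ((26 * (k + 1) ^ 2 : ℕ) : ℝ≥0∞) * b k +
        (((2 * r + 1) ^ 3 : ℕ) : ℝ≥0∞) * b r := by
  obtain ⟨hB, hS⟩ := hCNT
  have hSfin : ∀ k, {y : V3 | nm (y - x) = k}.Finite := fun k =>
    (hB x k).1.subset fun y hy => le_of_eq hy
  have h1 : ∀ y, (if y ∈ Bl z r then g y else 0) ≤
      (∑ k ∈ Finset.range (r + 1), if y ∈ {y : V3 | nm (y - x) = k} then g y else 0) +
        (if y ∈ {y : V3 | y ∈ Bl z r ∧ r < nm (y - x)} then g y else 0) := by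
    intro y
    by_cases hy : y ∈ Bl z r
    · rw [if_pos hy]
      by_cases hr : r < nm (y - x)
      · rw [if_pos (show y ∈ {y : V3 | y ∈ Bl z r ∧ r < nm (y - x)} from ⟨hy, hr⟩)]
        exact le_add_self
      · have h2 : nm (y - x) ∈ Finset.range (r + 1) := Finset.mem_range.2 (by omega)
        have h3 : g y ≤ ∑ k ∈ Finset.range (r + 1),
            if y ∈ {y : V3 | nm (y - x) = k} then g y else 0 := by
          have h4 := Finset.single_le_sum (f := fun k : ℕ =>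
            if y ∈ {y : V3 | nm (y - x) = k} then g y else 0) (fun _ _ => zero_le) h2
          rw [if_pos (show y ∈ {y' : V3 | nm (y' - x) = nm (y - x)} from rfl)] at h4
          exact h4
        exact h3.trans le_self_add
    · rw [if_neg hy]
      exact zero_le
  refine (ENNReal.tsum_le_tsum h1).trans ?_
  rw [ENNReal.tsum_add]
  refine add_le_add ?_ ?_
  · rw [Summable.tsum_finsetSum (fun _ _ => ENNReal.summable)]
    refine Finset.sum_le_sum fun k _ => ?_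
    refine tsum_set_le _ (hSfin k) _ (hS x k) g (b k) fun y hy => ?_
    have h2 := hb y
    rw [nm_sub_comm] at h2
    have h3 : nm (y - x) = k := hy
    rwa [h3] at h2
  · refine tsum_set_le {y : V3 | y ∈ Bl z r ∧ r < nm (y - x)}
      ((hB z r).1.subset fun y (hy : y ∈ Bl z r ∧ r < nm (y - x)) => hy.1) _ ?_ g (b r)
      fun y hy => ?_
    · rw [← (hB z r).2]
      exact Set.ncard_le_ncard (fun y (hy : y ∈ Bl z r ∧ r < nm (y - x)) => hy.1) (hB z r).1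
    · refine (hb y).trans (hanti _ _ ?_)
      rw [nm_sub_comm]
      exact hy.2.le

theorem pf_GSU (hCNT : T_CNT) (_hGTR : T_GTR) : T_GSU := by
  classical
  intro C₀ hC
  refine ⟨34 * C₀ + 34 * C₀ ^ 2, fun x z r => ?_⟩
  have hn0 : ∀ k : ℕ, ((1 + k : ℕ) : ℝ≥0∞) ≠ 0 := fun k => by
    have : (1 + k : ℕ) ≠ 0 := by omega
    exact_mod_cast this
  have hnt : ∀ k : ℕ, ((1 + k : ℕ) : ℝ≥0∞) ≠ ⊤ := fun k => ENNReal.natCast_ne_top _
  have hmul : ∀ k : ℕ, ((1 + k : ℕ) : ℝ≥0∞) * ((C₀ : ℝ≥0∞) / ((1 + k : ℕ) : ℝ≥0∞)) = C₀ :=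
    fun k => ENNReal.mul_div_cancel (hn0 k) (hnt k)
  have hanti : ∀ k l : ℕ, k ≤ l → (C₀ : ℝ≥0∞) / ((1 + l : ℕ) : ℝ≥0∞) ≤
      (C₀ : ℝ≥0∞) / ((1 + k : ℕ) : ℝ≥0∞) := fun k l h => by
    apply ENNReal.div_le_div_left
    exact_mod_cast (by omega : 1 + k ≤ 1 + l)
  have hle : ∀ k ∈ Finset.range (r + 1), ((1 + k : ℕ) : ℝ≥0∞) ≤ ((1 + r : ℕ) : ℝ≥0∞) := by
    intro k hk
    have h1 := Finset.mem_range.1 hk
    exact_mod_cast (by omega : 1 + k ≤ 1 + r)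
  have h2r : ((2 * r + 1 : ℕ) : ℝ≥0∞) ≤ 2 * ((1 + r : ℕ) : ℝ≥0∞) := by
    exact_mod_cast (by omega : 2 * r + 1 ≤ 2 * (1 + r))
  set R : ℝ≥0∞ := ((1 + r : ℕ) : ℝ≥0∞) with hR
  constructor
  · refine (split_sum hCNT x z r (fun y => Gr x y) (fun k => (C₀ : ℝ≥0∞) / ((1 + k : ℕ) : ℝ≥0∞))
      (fun y => hC x y) hanti).trans ?_
    have h1 : ∑ k ∈ Finset.range (r + 1), ((26 * (k + 1) ^ 2 : ℕ) : ℝ≥0∞) *
        ((C₀ : ℝ≥0∞) / ((1 + k : ℕ) : ℝ≥0∞)) ≤ 26 * C₀ * R ^ 2 := by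
      calc ∑ k ∈ Finset.range (r + 1), ((26 * (k + 1) ^ 2 : ℕ) : ℝ≥0∞) *
            ((C₀ : ℝ≥0∞) / ((1 + k : ℕ) : ℝ≥0∞)) ≤
            ∑ k ∈ Finset.range (r + 1), 26 * C₀ * R := by
            refine Finset.sum_le_sum fun k hk => ?_
            have e1 : ((26 * (k + 1) ^ 2 : ℕ) : ℝ≥0∞) =
                26 * ((1 + k : ℕ) : ℝ≥0∞) * ((1 + k : ℕ) : ℝ≥0∞) := by
              push_cast
              ring
            rw [e1, mul_assoc, hmul, mul_assoc, mul_assoc, mul_comm (C₀ : ℝ≥0∞) R]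
            gcongr
            exact hle k hk
        _ = 26 * C₀ * R ^ 2 := by
            rw [Finset.sum_const, Finset.card_range, nsmul_eq_mul]
            have e2 : ((r + 1 : ℕ) : ℝ≥0∞) = R := by
              rw [hR, add_comm]
            rw [e2]
            ring
    have h2 : (((2 * r + 1) ^ 3 : ℕ) : ℝ≥0∞) * ((C₀ : ℝ≥0∞) / R) ≤ 8 * C₀ * R ^ 2 := by
      calc (((2 * r + 1) ^ 3 : ℕ) : ℝ≥0∞) * ((C₀ : ℝ≥0∞) / R) ≤
            (2 * R) ^ 3 * ((C₀ : ℝ≥0∞) / R) := by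
            rw [Nat.cast_pow]
            gcongr
        _ = 8 * R ^ 2 * (R * ((C₀ : ℝ≥0∞) / R)) := by ring
        _ = 8 * C₀ * R ^ 2 := by
            rw [hR, hmul r]
            ring
    refine (add_le_add h1 h2).trans ?_
    have e3 : 26 * (C₀ : ℝ≥0∞) * R ^ 2 + 8 * C₀ * R ^ 2 = 34 * C₀ * R ^ 2 := by ring
    rw [e3]
    gcongr
    push_cast
    exact le_self_add
  · refine (split_sum hCNT x z r (fun y => Gr x y ^ 2)
      (fun k => ((C₀ : ℝ≥0∞) / ((1 + k : ℕ) : ℝ≥0∞)) ^ 2)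
      (fun y => pow_le_pow_left' (hC x y) 2) (fun k l h => pow_le_pow_left' (hanti k l h) 2)).trans ?_
    have h1 : ∑ k ∈ Finset.range (r + 1), ((26 * (k + 1) ^ 2 : ℕ) : ℝ≥0∞) *
        ((C₀ : ℝ≥0∞) / ((1 + k : ℕ) : ℝ≥0∞)) ^ 2 ≤ 26 * C₀ ^ 2 * R := by
      calc ∑ k ∈ Finset.range (r + 1), ((26 * (k + 1) ^ 2 : ℕ) : ℝ≥0∞) *
            ((C₀ : ℝ≥0∞) / ((1 + k : ℕ) : ℝ≥0∞)) ^ 2 =
            ∑ k ∈ Finset.range (r + 1), 26 * (C₀ : ℝ≥0∞) ^ 2 := by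
            refine Finset.sum_congr rfl fun k hk => ?_
            have e1 : ((26 * (k + 1) ^ 2 : ℕ) : ℝ≥0∞) = 26 * ((1 + k : ℕ) : ℝ≥0∞) ^ 2 := by
              push_cast
              ring
            rw [e1, mul_assoc, ← mul_pow, hmul]
        _ = 26 * C₀ ^ 2 * R := by
            rw [Finset.sum_const, Finset.card_range, nsmul_eq_mul]
            have e2 : ((r + 1 : ℕ) : ℝ≥0∞) = R := by
              rw [hR, add_comm]
            rw [e2]
            ring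
        _ ≤ 26 * C₀ ^ 2 * R := le_rfl
    have h2 : (((2 * r + 1) ^ 3 : ℕ) : ℝ≥0∞) * ((C₀ : ℝ≥0∞) / R) ^ 2 ≤ 8 * C₀ ^ 2 * R := by
      calc (((2 * r + 1) ^ 3 : ℕ) : ℝ≥0∞) * ((C₀ : ℝ≥0∞) / R) ^ 2 ≤
            (2 * R) ^ 3 * ((C₀ : ℝ≥0∞) / R) ^ 2 := by
            rw [Nat.cast_pow]
            gcongr
        _ = 8 * R * (R * ((C₀ : ℝ≥0∞) / R)) ^ 2 := by ring
        _ = 8 * C₀ ^ 2 * R := by
            rw [hR, hmul r]
            ring
    refine (add_le_add h1 h2).trans ?_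
    have e3 : 26 * (C₀ : ℝ≥0∞) ^ 2 * R + 8 * C₀ ^ 2 * R = 34 * C₀ ^ 2 * R := by ring
    rw [e3]
    gcongr
    push_cast
    exact le_add_self

end Pool.Agent.H23.LP
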