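import Pool.Agent.H62.LP.T1

/-!
# Row MOM of the board `rwl_modules`
-/

set_option autoImplicit false

open MeasureTheory ProbabilityTheory Filter Topology
open scoped ENNReal NNReal

namespace Pool.Agent.H23.LP

open Pool.Agent.H62.LP

theorem sum_get_opt {V : Type} (f : V → ℝ≥0∞) (l : List V) :
    ∑ i ∈ Finset.range l.length, (l[i]?).elim 0 f = vis f l := by
  unfold vis
  induction l with
  | nil => simp
  | cons a l ih =>
    rw [List.length_cons, Finset.sum_range_succ', List.map_cons, List.sum_cons, ← ih, add_comm]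
    rfl

theorem pf_MOM (hROT : T_ROT) : T_MOM := by
  intro d f F
  have h := hROT d fun l => (l.head?.elim 0 f) * F (l : Cycle (Vt d))
  have h1 : ∀ l : List (Vt d), ∑ i ∈ Finset.range l.length,
      ((l.rotate i).head?.elim 0 f) * F ((l.rotate i : List (Vt d)) : Cycle (Vt d)) =
      vis f l * F (l : Cycle (Vt d)) := by
    intro l
    rw [← sum_get_opt, Finset.sum_mul]
    refine Finset.sum_congr rfl fun i hi => ?_
    rw [List.head?_rotate (Finset.mem_range.1 hi)]
    have h2 : ((l.rotate i : List (Vt d)) : Cycle (Vt d)) = (l : Cycle (Vt d)) :=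
      Cycle.coe_eq_coe.2 (List.IsRotated.symm ⟨i, rfl⟩)
    rw [h2]
  simp only [h1] at h
  rw [h]
  refine tsum_congr fun a => tsum_congr fun t => ?_
  by_cases ht : t = []
  · rw [if_pos ht, if_pos ht]
  · rw [if_neg ht, if_neg ht]
    exact mul_left_comm _ _ _

end Pool.Agent.H23.LP
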